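import Pool.Agent.Y97.AB.Der

/-!
# Operators of `sl(2)`-representations (for AB-DER)
-/

open Finset
open IsNilpotent (exp exp_eq_sum)

namespace Pool.Agent.Y96.AB

open Pool.Agent.H914

section Exp

variable {A : Type*} [Ring A]

lemma pow_comm_of {a x y : A} (h1 : a * x = x * a + y) (h2 : a * y = y * a) (k : ℕ) :
    a ^ (k + 1) * x = x * a ^ (k + 1) + (k + 1 : ℕ) • (y * a ^ k) := by
  induction k with
  | zero => simp [h1]
  | succ k ih =>
    calc a ^ (k + 1 + 1) * x = a * (a ^ (k + 1) * x) := by rw [pow_succ' a (k + 1), mul_assoc]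
      _ = a * (x * a ^ (k + 1) + (k + 1 : ℕ) • (y * a ^ k)) := by rw [ih]
      _ = (a * x) * a ^ (k + 1) + (k + 1 : ℕ) • ((a * y) * a ^ k) := by
        rw [mul_add, mul_smul_comm, mul_assoc, mul_assoc]
      _ = (x * a + y) * a ^ (k + 1) + (k + 1 : ℕ) • ((y * a) * a ^ k) := by rw [h1, h2]
      _ = x * a ^ (k + 1 + 1) + (k + 1 + 1 : ℕ) • (y * a ^ (k + 1)) := by
        rw [add_mul, mul_assoc, ← pow_succ' a (k + 1), mul_assoc y a, ← pow_succ' a k,
          add_smul (k + 1) 1, one_smul]
        abel

variable [Module ℚ A]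

lemma exp_comm_of {a x y : A} (ha : IsNilpotent a) (h1 : a * x = x * a + y) (h2 : a * y = y * a) :
    exp a * x = (x + y) * exp a := by
  obtain ⟨N, hN⟩ := ha
  have hN1 : a ^ (N + 1) = 0 := by rw [pow_succ, hN, zero_mul]
  have e1 : exp a * x = ∑ k ∈ range (N + 1), ((k.factorial : ℚ)⁻¹) • (a ^ k * x) := by
    rw [exp_eq_sum hN1, Finset.sum_mul]
    exact Finset.sum_congr rfl (fun k _ => smul_mul_assoc _ _ _)
  have e2 : x * exp a = ∑ k ∈ range (N + 1), ((k.factorial : ℚ)⁻¹) • (x * a ^ k) := by
    rw [exp_eq_sum hN1, Finset.mul_sum]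
    exact Finset.sum_congr rfl (fun k _ => mul_smul_comm _ _ _)
  have e3 : y * exp a = ∑ k ∈ range N, ((k.factorial : ℚ)⁻¹) • (y * a ^ k) := by
    rw [exp_eq_sum hN, Finset.mul_sum]
    exact Finset.sum_congr rfl (fun k _ => mul_smul_comm _ _ _)
  have key : ∀ k ∈ range N, (((k + 1).factorial : ℚ)⁻¹) • (a ^ (k + 1) * x) =
      (((k + 1).factorial : ℚ)⁻¹) • (x * a ^ (k + 1)) + ((k.factorial : ℚ)⁻¹) • (y * a ^ k) := by
    intro k _
    rw [pow_comm_of h1 h2, smul_add, ← Nat.cast_smul_eq_nsmul ℚ, smul_smul, Nat.factorial_succ]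
    congr 2
    push_cast
    have : (k : ℚ) + 1 ≠ 0 := by positivity
    have h2 : (k.factorial : ℚ) ≠ 0 := by positivity
    field_simp
  rw [add_mul, e1, e2, e3, Finset.sum_range_succ', Finset.sum_range_succ', Finset.sum_congr rfl key,
    Finset.sum_add_distrib]
  simp only [pow_zero, one_mul, mul_one]
  abel

lemma exp_comm_zero {a x : A} (ha : IsNilpotent a) (h1 : a * x = x * a) :
    exp a * x = x * exp a := by
  have := exp_comm_of (x := x) (y := 0) ha (by rw [h1, add_zero]) (by simp)
  rwa [add_zero] at this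

lemma weyl_comm {e f m d : A} (he : IsNilpotent e) (hf : IsNilpotent f) (h1 : e * m = m * e)
    (h2 : e * d = d * e + m) (h3 : f * m = m * f + d) (h4 : f * d = d * f) :
    weyl e f * d = m * weyl e f := by
  have a1 : exp e * d = (d + m) * exp e := exp_comm_of he h2 h1
  have a2 : exp e * m = m * exp e := exp_comm_zero he h1
  have a3 : exp (-f) * m = (m - d) * exp (-f) := by
    rw [sub_eq_add_neg]
    apply exp_comm_of hf.neg
    · rw [neg_mul, h3]; noncomm_ring
    · rw [neg_mul_neg, neg_mul_neg, h4]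
  have a4 : exp (-f) * d = d * exp (-f) := by
    apply exp_comm_zero hf.neg
    rw [neg_mul, mul_neg, h4]
  unfold weyl
  calc exp e * exp (-f) * exp e * d = exp e * (exp (-f) * (exp e * d)) := by
        simp only [mul_assoc]
    _ = exp e * ((exp (-f) * d + exp (-f) * m) * exp e) := by
        rw [a1]; noncomm_ring
    _ = (exp e * m) * exp (-f) * exp e := by rw [a3, a4]; noncomm_ring
    _ = m * (exp e * exp (-f) * exp e) := by rw [a2]; simp only [mul_assoc]

end Exp

section Rep

variable {K : Type*} [Field K] [CharZero K] {V : Type*} [AddCommGroup V] [Module K V]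
  [Module.Finite K V] {h e f : Module.End K V}

lemma wey_comm (t : Sl2 h e f) {m d : Module.End K V} (h1 : e * m = m * e)
    (h2 : e * d = d * e + m) (h3 : f * m = m * f + d) (h4 : f * d = d * f) :
    wey e f * d = m * wey e f := by
  let _ : Module ℚ (Module.End K V) := Module.compHom (Module.End K V) (algebraMap ℚ K)
  exact weyl_comm t.nil_e t.nil_f h1 h2 h3 h4

/-- The adjoint operator. -/
noncomputable def adl (a : Module.End K V) : Module.End K (Module.End K V) :=
  LinearMap.mulLeft K a - LinearMap.mulRight K a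

omit [CharZero K] [Module.Finite K V] in
lemma adl_apply (a T : Module.End K V) : adl a T = a * T - T * a := rfl

omit [CharZero K] [Module.Finite K V] in
lemma two_apply (T : Module.End K V) : (2 : Module.End K (Module.End K V)) T = 2 * T := by
  rw [two_mul]
  have : (2 : Module.End K (Module.End K V)) = 1 + 1 := by norm_num
  rw [this, LinearMap.add_apply, Module.End.one_apply]

omit [CharZero K] [Module.Finite K V] in
lemma sl2_adl (t : Sl2 h e f) : Sl2 (adl h) (adl e) (adl f) := by
  constructor
  · apply LinearMap.ext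
    intro Y
    simp only [LinearMap.sub_apply, Module.End.mul_apply, adl_apply]
    rw [← t.ef]
    noncomm_ring
  · apply LinearMap.ext
    intro Y
    simp only [LinearMap.sub_apply, Module.End.mul_apply, adl_apply, two_apply]
    have := t.he
    calc h * (e * Y - Y * e) - (e * Y - Y * e) * h - (e * (h * Y - Y * h) - (h * Y - Y * h) * e) =
        (h * e - e * h) * Y - Y * (h * e - e * h) := by noncomm_ring
      _ = _ := by rw [this]; noncomm_ring
  · apply LinearMap.ext
    intro Y
    simp only [LinearMap.sub_apply, Module.End.mul_apply, adl_apply, two_apply,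
      LinearMap.neg_apply]
    have := t.hf
    calc h * (f * Y - Y * f) - (f * Y - Y * f) * h - (f * (h * Y - Y * h) - (h * Y - Y * h) * f) =
        (h * f - f * h) * Y - Y * (h * f - f * h) := by noncomm_ring
      _ = _ := by rw [this]; noncomm_ring

/-- An operator of negative weight commuting with the raising operator is zero. -/
lemma eq_zero_of_comm (t : Sl2 h e f) {Z : Module.End K V} {r : ℕ} (hr : 1 ≤ r)
    (h1 : e * Z = Z * e) (h2 : h * Z - Z * h = -(r : K) • Z) : Z = 0 := by
  by_contra hZ
  refine Sl2.e_pow_inj (sl2_adl t) (x := Z) (M := r) h2 hZ hr ?_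
  rw [pow_one, adl_apply, h1, sub_self]

lemma eq_zero_of_comm1 (t : Sl2 h e f) {Z : Module.End K V}
    (h1 : e * Z = Z * e) (h2 : h * Z - Z * h = -Z) : Z = 0 := by
  refine eq_zero_of_comm t (r := 1) le_rfl h1 ?_
  rw [h2, Nat.cast_one, neg_one_smul]

lemma eq_zero_of_comm3 (t : Sl2 h e f) {Z : Module.End K V}
    (h1 : e * Z = Z * e) (h2 : h * Z = Z * h - 3 * Z) : Z = 0 := by
  refine eq_zero_of_comm t (r := 3) (by norm_num) h1 ?_
  rw [h2, sub_sub_cancel_left, neg_smul, Nat.cast_smul_eq_nsmul, nsmul_eq_mul]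
  norm_num

end Rep

section Aux

variable {R : Type*} [Ring R]

lemma aux1 (a b c m : R) : a * c + m - (b * c - -m) = (a - b) * c := by noncomm_ring

lemma aux2 (a b c : R) : (a * c - a) - (-b + b * c) - (a - b) * c = -(a - b) := by noncomm_ring

end Aux

end Pool.Agent.Y96.AB
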