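import Pool.Agent.Y96.AB.A

/-!
# Job AB-DER of helper97: in an exterior algebra cohomology the adjoints of the multiplications by
the classes of degree one are odd derivations
-/

open CategoryTheory AlgebraicGeometry Finset

universe u v

namespace Pool.Agent.Y96.AB

open Pool.Agent.H914 Pool.Agent.H914.VarClass Pool.Agent.H914.VarClass.Obj
  Pool.Agent.H914.WeilCohomology Pool.Agent.H281R3.HT Pool.Agent.W552 Pool.Agent.W539.Ker
  Pool.Agent.Y97 Pool.Agent.Y97.FD Pool.Agent.Y97.AB

variable {k : Type u} [Field k] {𝒱 : VarClass k} {ops : CycleOps 𝒱}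
  {W : WeilCohomology.{u, v} ops} {X : 𝒱.Obj}

/-- The isomorphism with the exterior algebra. -/
noncomputable def eqv (h : IsExterior W X) :
    ExteriorAlgebra W.K (W.gr X 1) ≃ₐ[W.K] W.H X := AlgEquiv.ofBijective (extHom W X) h

lemma eqv_ι (h : IsExterior W X) (w : W.gr X 1) :
    eqv h (ExteriorAlgebra.ι W.K w) = (w : W.H X) := by
  change extHom W X (ExteriorAlgebra.ι W.K w) = _
  rw [extHom, ExteriorAlgebra.lift_ι_apply]
  rfl

lemma gen_induction (h : IsExterior W X) {p : W.H X → Prop}
    (hr : ∀ r : W.K, p (algebraMap W.K (W.H X) r)) (hadd : ∀ a b, p a → p b → p (a + b))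
    (hmul : ∀ w ∈ W.gr X 1, ∀ b, p b → p (w * b)) (a : W.H X) : p a := by
  have key : ∀ x : ExteriorAlgebra W.K (W.gr X 1), p (eqv h x) := by
    intro x
    induction x using CliffordAlgebra.left_induction with
    | algebraMap r => rw [AlgEquiv.commutes]; exact hr r
    | add x y hx hy => rw [map_add]; exact hadd _ _ hx hy
    | ι_mul x m hx =>
      rw [map_mul]
      have := eqv_ι h m
      rw [show eqv h ((CliffordAlgebra.ι (0 : QuadraticForm W.K (W.gr X 1))) m) = (m : W.H X) from
        this]
      exact hmul _ m.2 _ hx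
  have := key ((eqv h).symm a)
  rwa [AlgEquiv.apply_symm_apply] at this

/-- The contraction with a linear form on the first cohomology. -/
noncomputable def con (h : IsExterior W X) :
    Module.Dual W.K (W.gr X 1) →ₗ[W.K] Module.End W.K (W.H X) where
  toFun lam := (eqv h).toLinearMap ∘ₗ
    (CliffordAlgebra.contractLeft (Q := (0 : QuadraticForm W.K (W.gr X 1))) lam) ∘ₗ
      (eqv h).symm.toLinearMap
  map_add' a b := by
    apply LinearMap.ext
    intro x
    simp only [map_add, LinearMap.comp_apply, LinearMap.add_apply]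
  map_smul' c a := by
    apply LinearMap.ext
    intro x
    simp only [map_smul, LinearMap.comp_apply, LinearMap.smul_apply, RingHom.id_apply]

lemma con_algebraMap (h : IsExterior W X) (lam : Module.Dual W.K (W.gr X 1)) (r : W.K) :
    con h lam (algebraMap W.K (W.H X) r) = 0 := by
  change eqv h (CliffordAlgebra.contractLeft (Q := (0 : QuadraticForm W.K (W.gr X 1))) lam
    ((eqv h).symm (algebraMap W.K (W.H X) r))) = 0
  rw [AlgEquiv.commutes]
  rw [CliffordAlgebra.contractLeft_algebraMap, map_zero]

lemma con_mul (h : IsExterior W X) (lam : Module.Dual W.K (W.gr X 1)) {w : W.H X}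
    (hw : w ∈ W.gr X 1) (b : W.H X) :
    con h lam (w * b) = lam ⟨w, hw⟩ • b - w * con h lam b := by
  change eqv h (CliffordAlgebra.contractLeft (Q := (0 : QuadraticForm W.K (W.gr X 1))) lam
    ((eqv h).symm (w * b))) = _ - w * eqv h (CliffordAlgebra.contractLeft
      (Q := (0 : QuadraticForm W.K (W.gr X 1))) lam ((eqv h).symm b))
  have h1 : (eqv h).symm w = CliffordAlgebra.ι (0 : QuadraticForm W.K (W.gr X 1)) ⟨w, hw⟩ := by
    rw [AlgEquiv.symm_apply_eq]
    exact (eqv_ι h ⟨w, hw⟩).symm
  have h2 : eqv h (CliffordAlgebra.ι (0 : QuadraticForm W.K (W.gr X 1)) ⟨w, hw⟩) = w :=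
    eqv_ι h ⟨w, hw⟩
  rw [map_mul, h1, CliffordAlgebra.contractLeft_ι_mul, map_sub, map_smul, map_mul, h2,
    AlgEquiv.apply_symm_apply]

/-- The weight of a product with a class of degree one. -/
lemma wt_mul {w : W.H X} (hw : w ∈ W.gr X 1) (b : W.H X) :
    wt (W.isInternal X) X.dim (w * b) = w * wt (W.isInternal X) X.dim b + w * b := by
  refine gr_induction (W.isInternal X) (p := fun b => wt (W.isInternal X) X.dim (w * b) =
    w * wt (W.isInternal X) X.dim b + w * b) ?_ ?_ b
  · intro i b hb
    rw [Fr.wt_gr hb, Fr.wt_gr (W.mul_mem hw hb), mul_smul_comm,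
      show (((1 + i : ℕ) : W.K) - X.dim) = ((i : W.K) - X.dim) + 1 by push_cast; ring, add_smul,
      one_smul]
  · intro a b ha hb
    rw [mul_add, map_add, ha, hb, map_add, mul_add]
    abel

lemma par_mul' {w : W.H X} (hw : w ∈ W.gr X 1) (b : W.H X) :
    par (W.isInternal X) (w * b) = -(w * par (W.isInternal X) b) := by
  refine gr_induction (W.isInternal X) (p := fun b => par (W.isInternal X) (w * b) =
    -(w * par (W.isInternal X) b)) ?_ ?_ b
  · intro i b hb
    rw [par, scal_apply _ _ hb, scal_apply _ _ (W.mul_mem hw hb), mul_smul_comm, add_comm 1 i,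
      pow_succ, mul_neg_one, neg_smul]
  · intro a b ha hb
    rw [mul_add, map_add, ha, hb, map_add, mul_add]
    abel

lemma wt_alg (r : W.K) : wt (W.isInternal X) X.dim (algebraMap W.K (W.H X) r) =
    algebraMap W.K (W.H X) (-(X.dim : W.K) * r) := by
  have h1 : algebraMap W.K (W.H X) r ∈ W.gr X 0 := by
    rw [Algebra.algebraMap_eq_smul_one]
    exact Submodule.smul_mem _ _ (W.one_mem X)
  rw [Fr.wt_gr h1, Algebra.smul_def, ← map_mul]
  congr 1
  push_cast
  ring

lemma wt_con (h : IsExterior W X) (lam : Module.Dual W.K (W.gr X 1)) :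
    wt (W.isInternal X) X.dim * con h lam - con h lam * wt (W.isInternal X) X.dim =
      - con h lam := by
  apply LinearMap.ext
  intro b
  rw [LinearMap.sub_apply, LinearMap.neg_apply, Module.End.mul_apply, Module.End.mul_apply]
  refine gen_induction h (p := fun b => wt (W.isInternal X) X.dim (con h lam b) -
    con h lam (wt (W.isInternal X) X.dim b) = - con h lam b) ?_ ?_ ?_ b
  · intro r
    rw [wt_alg, con_algebraMap, con_algebraMap, map_zero, sub_zero, neg_zero]
  · intro a b ha hb
    simp only [map_add]
    rw [neg_add, ← ha, ← hb]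
    abel
  · intro w hw b hb
    rw [wt_mul hw, map_add, con_mul h lam hw, con_mul h lam hw, map_sub, map_smul, wt_mul hw]
    have h1 : con h lam (wt (W.isInternal X) X.dim b) =
        wt (W.isInternal X) X.dim (con h lam b) + con h lam b := by
      rw [sub_eq_iff_eq_add] at hb
      rw [hb]; abel
    rw [h1, mul_add]
    abel

lemma con_leib (h : IsExterior W X) (lam : Module.Dual W.K (W.gr X 1)) (c b : W.H X) :
    con h lam (c * b) = con h lam c * b + par (W.isInternal X) c * con h lam b := by
  refine gen_induction h (p := fun c => con h lam (c * b) =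
    con h lam c * b + par (W.isInternal X) c * con h lam b) ?_ ?_ ?_ c
  · intro r
    have h1 : algebraMap W.K (W.H X) r ∈ W.gr X 0 := by
      rw [Algebra.algebraMap_eq_smul_one]
      exact Submodule.smul_mem _ _ (W.one_mem X)
    rw [con_algebraMap, zero_mul, zero_add, par, scal_apply _ _ h1, pow_zero, one_smul,
      ← Algebra.smul_def, ← Algebra.smul_def, map_smul]
  · intro a a' ha ha'
    rw [add_mul, map_add, ha, ha', map_add, map_add, add_mul, add_mul]
    abel
  · intro w hw a ha
    rw [mul_assoc, con_mul h lam hw, ha, con_mul h lam hw, par_mul' hw]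
    rw [sub_mul, smul_mul_assoc, mul_add, neg_mul, mul_assoc, mul_assoc]
    abel

variable {D : X.Cycles} {f : Module.End W.K (W.H X)}

lemma con_e (h : IsExterior W X) (lam : Module.Dual W.K (W.gr X 1)) (hD : X.IsCyc 1 D) :
    LinearMap.mulLeft W.K (W.cl X D) * con h lam =
      con h lam * LinearMap.mulLeft W.K (W.cl X D) -
        LinearMap.mulLeft W.K (con h lam (W.cl X D)) := by
  apply LinearMap.ext
  intro b
  simp only [Module.End.mul_apply, LinearMap.sub_apply, LinearMap.mulLeft_apply]
  have h1 := W.cl_mem hD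
  rw [con_leib, par, scal_apply _ _ h1]
  simp

lemma con_deg (h : IsExterior W X) (lam : Module.Dual W.K (W.gr X 1)) (hD : X.IsCyc 1 D) :
    con h lam (W.cl X D) ∈ W.gr X 1 := by
  have h1 := congrArg (fun F => F (W.cl X D)) (wt_con h lam)
  simp only [LinearMap.sub_apply, LinearMap.neg_apply, Module.End.mul_apply,
    Fr.wt_gr (W.cl_mem hD), map_smul] at h1
  rw [sub_eq_iff_eq_add] at h1
  refine (mem_gr_of_wt (W.isInternal X) W_hbd (μ := ((1 : ℕ) : W.K) - X.dim) ?_).1 1 rfl
  rw [h1, ← neg_one_smul W.K, ← add_smul]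
  congr 1
  push_cast
  ring

/-- Contraction of the class of the polarization. -/
noncomputable def cmap (h : IsExterior W X) (hD : X.IsCyc 1 D) :
    Module.Dual W.K (W.gr X 1) →ₗ[W.K] W.gr X 1 where
  toFun lam := ⟨con h lam (W.cl X D), con_deg h lam hD⟩
  map_add' a b := by
    apply Subtype.ext
    simp only [map_add, LinearMap.add_apply, Submodule.coe_add]
  map_smul' c a := by
    apply Subtype.ext
    simp only [map_smul, LinearMap.smul_apply, RingHom.id_apply, Submodule.coe_smul]

lemma cmap_inj (h : IsExterior W X) (F : Fr W X D f) : Function.Injective (cmap h F.hD) := by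
  rw [← LinearMap.ker_eq_bot, LinearMap.ker_eq_bot']
  intro lam h0
  have h1 : con h lam (W.cl X D) = 0 := congrArg Subtype.val h0
  have h2 : con h lam = 0 := by
    refine eq_zero_of_comm1 F.sl2 ?_ (wt_con h lam)
    rw [con_e h lam F.hD, h1]
    apply LinearMap.ext
    intro b
    simp [Module.End.mul_apply]
  apply LinearMap.ext
  intro w
  have h3 := con_mul h lam w.2 1
  rw [h2, LinearMap.zero_apply, LinearMap.zero_apply, mul_zero, sub_zero] at h3
  rcases smul_eq_zero.1 h3.symm with h4 | h4
  · exact h4
  · have : (w : W.H X) = 0 := by rw [← mul_one (w : W.H X), h4, mul_zero]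
    have : w = 0 := Subtype.ext this
    rw [this, map_zero, map_zero]

lemma cmap_surj (h : IsExterior W X) (F : Fr W X D f) : Function.Surjective (cmap h F.hD) := by
  refine (LinearMap.injective_iff_surjective_of_finrank_eq_finrank ?_).1 (cmap_inj h F)
  exact Subspace.dual_finrank_eq

lemma mulLeft_comm_e (hD : X.IsCyc 1 D) (v : W.H X) :
    LinearMap.mulLeft W.K (W.cl X D) * LinearMap.mulLeft W.K v =
      LinearMap.mulLeft W.K v * LinearMap.mulLeft W.K (W.cl X D) := by
  apply LinearMap.ext
  intro b
  simp only [Module.End.mul_apply, LinearMap.mulLeft_apply]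
  rw [← mul_assoc, ← mul_assoc, W.even_comm (W.cl_mem hD) v]

lemma wt_mulLeft {v : W.H X} (hv : v ∈ W.gr X 1) :
    wt (W.isInternal X) X.dim * LinearMap.mulLeft W.K v =
      LinearMap.mulLeft W.K v * wt (W.isInternal X) X.dim + LinearMap.mulLeft W.K v := by
  apply LinearMap.ext
  intro b
  simp only [Module.End.mul_apply, LinearMap.mulLeft_apply, LinearMap.add_apply]
  exact wt_mul hv b

section Del

variable {A : Type*} [Ring A] {H e f m : A} (t : Sl2 H e f)

include t

lemma e_del (h1 : e * m = m * e) (h2 : H * m = m * H + m) :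
    e * (f * m - m * f) = (f * m - m * f) * e + m := by
  have h3 := t.ef
  have h4 : e * f = f * e + H := by rw [← h3]; abel
  calc e * (f * m - m * f) = (e * f) * m - (e * m) * f := by noncomm_ring
    _ = (f * e + H) * m - (m * e) * f := by rw [h4, h1]
    _ = f * (e * m) + H * m - m * (e * f) := by noncomm_ring
    _ = f * (m * e) + (m * H + m) - m * (f * e + H) := by rw [h1, h2, h4]
    _ = _ := by noncomm_ring

lemma h_del (h2 : H * m = m * H + m) :
    H * (f * m - m * f) = (f * m - m * f) * H - (f * m - m * f) := by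
  have h3 := t.hf
  have h4 : H * f = f * H - 2 * f := by
    rw [sub_eq_iff_eq_add] at h3
    rw [h3]; abel
  calc H * (f * m - m * f) = (H * f) * m - (H * m) * f := by noncomm_ring
    _ = (f * H - 2 * f) * m - (m * H + m) * f := by rw [h4, h2]
    _ = f * (H * m) - 2 * (f * m) - m * (H * f) - m * f := by noncomm_ring
    _ = f * (m * H + m) - 2 * (f * m) - m * (f * H - 2 * f) - m * f := by rw [h4, h2]
    _ = _ := by noncomm_ring

lemma e_fdel {d : A} (h1 : e * d = d * e + m) (h2 : H * d = d * H - d) (h3 : f * m = m * f + d) :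
    e * (f * d - d * f) = (f * d - d * f) * e := by
  have h4 : e * f = f * e + H := by rw [← t.ef]; abel
  calc e * (f * d - d * f) = (e * f) * d - (e * d) * f := by noncomm_ring
    _ = (f * e + H) * d - (d * e + m) * f := by rw [h4, h1]
    _ = f * (e * d) + H * d - d * (e * f) - m * f := by noncomm_ring
    _ = f * (d * e + m) + (d * H - d) - d * (f * e + H) - m * f := by rw [h1, h2, h4]
    _ = (f * m) + (f * d - d * f) * e - d - m * f := by noncomm_ring
    _ = _ := by rw [h3]; noncomm_ring

lemma h_fdel {d : A} (h2 : H * d = d * H - d) :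
    H * (f * d - d * f) = (f * d - d * f) * H - 3 * (f * d - d * f) := by
  have h3 := t.hf
  have h4 : H * f = f * H - 2 * f := by
    rw [sub_eq_iff_eq_add] at h3
    rw [h3]; abel
  calc H * (f * d - d * f) = (H * f) * d - (H * d) * f := by noncomm_ring
    _ = (f * H - 2 * f) * d - (d * H - d) * f := by rw [h4, h2]
    _ = f * (H * d) - 2 * (f * d) - d * (H * f) + d * f := by noncomm_ring
    _ = f * (d * H - d) - 2 * (f * d) - d * (f * H - 2 * f) + d * f := by rw [h4, h2]
    _ = _ := by noncomm_ring

end Del

/-- The commutator of the lowering operator with the multiplication by a class of degree one. -/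
lemma exists_con (h : IsExterior W X) (F : Fr W X D f) {v : W.H X} (hv : v ∈ W.gr X 1) :
    ∃ lam : Module.Dual W.K (W.gr X 1),
      f * LinearMap.mulLeft W.K v - LinearMap.mulLeft W.K v * f = con h lam := by
  obtain ⟨lam, hlam⟩ := cmap_surj h F (-⟨v, hv⟩)
  have h1 : con h lam (W.cl X D) = -v := congrArg Subtype.val hlam
  refine ⟨lam, ?_⟩
  rw [← sub_eq_zero]
  refine eq_zero_of_comm1 F.sl2 ?_ ?_
  · rw [mul_sub, e_del F.sl2 (mulLeft_comm_e F.hD v) (wt_mulLeft hv), con_e h lam F.hD, h1]
    have h2 : LinearMap.mulLeft W.K (-v) = - LinearMap.mulLeft W.K v := by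
      apply LinearMap.ext
      intro b
      simp
    rw [h2]
    exact aux1 _ _ _ _
  · rw [mul_sub, h_del F.sl2 (wt_mulLeft hv)]
    have h3 := wt_con h lam
    rw [sub_eq_iff_eq_add] at h3
    rw [h3]
    exact aux2 _ _ _

/-- **Job AB-DER.** -/
theorem der_of_exterior {X : 𝒱.Obj} {D : X.Cycles} {f : Module.End W.K (W.H X)} (G : Gp W X D f)
    (h : IsExterior W X) : Der W X D f := by
  have F := G.fr
  intro v hv
  obtain ⟨lam, hlam⟩ := exists_con h F hv
  set m := LinearMap.mulLeft W.K v with hm
  have t := F.sl2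
  have r1 : LinearMap.mulLeft W.K (W.cl X D) * m = m * LinearMap.mulLeft W.K (W.cl X D) :=
    mulLeft_comm_e F.hD v
  have r2 : wt (W.isInternal X) X.dim * m = m * wt (W.isInternal X) X.dim + m := wt_mulLeft hv
  have r3 : f * m = m * f + con h lam := by rw [← hlam]; abel
  have r4 : LinearMap.mulLeft W.K (W.cl X D) * con h lam =
      con h lam * LinearMap.mulLeft W.K (W.cl X D) + m := by
    rw [← hlam]; exact e_del t r1 r2
  have r5 : wt (W.isInternal X) X.dim * con h lam =
      con h lam * wt (W.isInternal X) X.dim - con h lam := by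
    rw [← hlam]; exact h_del t r2
  have r6 : f * con h lam = con h lam * f := by
    rw [← sub_eq_zero]
    exact eq_zero_of_comm3 t (e_fdel t r4 r5 r3) (h_fdel t r5)
  have r7 : wop W X D f * con h lam = m * wop W X D f := wey_comm t r1 r4 r3 r6
  -- degrees
  have hdeg : ∀ {j : ℕ} {b : W.H X}, b ∈ W.gr X j → (∀ i, i + 1 = j → con h lam b ∈ W.gr X i) ∧
      (j = 0 → con h lam b = 0) := by
    intro j b hb
    have h1 := congrArg (fun F => F b) r5
    simp only [LinearMap.sub_apply, Module.End.mul_apply, Fr.wt_gr hb, map_smul] at h1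
    have h2 : wt (W.isInternal X) X.dim (con h lam b) =
        ((j : W.K) - X.dim - 1) • con h lam b := by
      rw [h1, sub_smul _ (1 : W.K), one_smul]
    have h3 := mem_gr_of_wt (W.isInternal X) W_hbd h2
    constructor
    · intro i hi
      apply h3.1
      rw [← hi]
      push_cast
      ring
    · intro hj
      apply h3.2
      intro i h0
      have : ((i + 1 : ℕ) : W.K) = (j : ℕ) := by push_cast; linear_combination -h0
      have : i + 1 = j := by exact_mod_cast this
      omega
  refine ⟨con h lam, ?_, ?_, ?_⟩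
  · intro a b
    refine gr_induction (W.isInternal X) (p := fun a => bf W X D f (v * a) b =
      bf W X D f a (con h lam b)) ?_ ?_ a
    swap
    · intro a a' ha ha'
      rw [mul_add, map_add, LinearMap.add_apply, ha, ha', map_add, LinearMap.add_apply]
    intro i a ha
    refine gr_induction (W.isInternal X) (p := fun b => bf W X D f (v * a) b =
      bf W X D f a (con h lam b)) ?_ ?_ b
    swap
    · intro b b' hb hb'
      rw [map_add, hb, hb', map_add, map_add]
    intro j b hb
    have hva := W.mul_mem hv ha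
    by_cases hij : i + 1 = j
    · have hb' := (hdeg hb).1 i hij
      rw [bf_apply, bf_apply, st_apply hb, st_apply hb', mul_smul_comm, mul_smul_comm, map_smul,
        map_smul, W.comm hv ha, smul_mul_assoc, map_smul, mul_assoc, one_mul]
      have h4 := congrArg (fun F => F b) r7
      simp only [Module.End.mul_apply, hm, LinearMap.mulLeft_apply] at h4
      rw [← h4, smul_eq_mul, smul_eq_mul, smul_eq_mul, ← mul_assoc]
      congr 1
      have h5 : sg j = sg i * (-1) ^ i := by
        rw [← hij, sg_add, mul_one]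
        simp [sg]
      rw [h5]
      push_cast
      have h6 : (-1 : W.K) ^ i * (-1) ^ i = 1 := by rw [← mul_pow]; simp
      linear_combination (sg i : W.K) * h6
    · rw [F.bf_deg hva hb (by omega)]
      rcases Nat.eq_zero_or_pos j with h0 | h0
      · rw [(hdeg hb).2 h0, map_zero]
      · rw [F.bf_deg ha ((hdeg hb).1 (j - 1) (by omega)) (by omega)]
  · have := con_algebraMap h lam 1
    rwa [map_one] at this
  · intro w hw
    exact ⟨lam ⟨w, hw⟩, fun b => con_mul h lam hw b⟩

end Pool.Agent.Y96.AB
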